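import Pool.Agent.Run7.h400.GK.StmK

/-!
# Pieces DIG and WTK of the project GK (helper400, MP_a90b0f_nt): digits in base `q`
-/

set_option autoImplicit false

namespace Run7.h194.GK

open Polynomial Finset
open Run7.h400.GK

theorem sum_dg (q k n : ℕ) : ∑ i ∈ range n, dg q k i * q ^ i = k % q ^ n := by
  induction n with
  | zero => simp [Nat.mod_one]
  | succ n ih =>
    rw [sum_range_succ, ih, Nat.mod_pow_succ, dg]
    ring

theorem dg_lt {q : ℕ} (hq : 2 ≤ q) (k i : ℕ) : dg q k i < q := Nat.mod_lt _ (by omega)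

theorem dg_eq_zero {q d k : ℕ} (hq : 2 ≤ q) (hk : k < q ^ d) (i : ℕ) (hi : d ≤ i) : dg q k i = 0 := by
  unfold dg
  rw [Nat.div_eq_of_lt (hk.trans_le (Nat.pow_le_pow_right (by omega) hi)), Nat.zero_mod]

theorem sum_pow (q d : ℕ) (hq : 2 ≤ q) : ∑ i ∈ range d, (q - 1) * q ^ i = q ^ d - 1 := by
  induction d with
  | zero => simp
  | succ d ih =>
    rw [sum_range_succ, ih, pow_succ, Nat.sub_mul, one_mul]
    have h1 : 1 ≤ q ^ d := Nat.one_le_pow _ _ (by omega)
    have h2 : q ^ d ≤ q ^ d * q := Nat.le_mul_of_pos_right _ (by omega)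
    have h3 : q * q ^ d = q ^ d * q := mul_comm _ _
    omega

/-- the sum of `q^i (q - 1 - k_i)` -/
theorem sum_co {q d k : ℕ} (hq : 2 ≤ q) (hk : k < q ^ d) :
    ∑ i ∈ range d, q ^ i * (q - 1 - dg q k i) = q ^ d - 1 - k := by
  have h1 : ∑ i ∈ range d, dg q k i * q ^ i = k := by
    rw [sum_dg, Nat.mod_eq_of_lt hk]
  have h2 : ∑ i ∈ range d, q ^ i * (q - 1 - dg q k i) + ∑ i ∈ range d, dg q k i * q ^ i =
      ∑ i ∈ range d, (q - 1) * q ^ i := by
    rw [← sum_add_distrib]
    apply sum_congr rfl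
    intro i _
    have h3 := dg_lt hq k i
    obtain ⟨c, hc⟩ : ∃ c, q - 1 = dg q k i + c := ⟨q - 1 - dg q k i, by omega⟩
    rw [hc, Nat.add_sub_cancel_left]
    ring
  rw [h1, sum_pow q d hq] at h2
  omega

theorem modEq_sum {q d k : ℕ} (hq : 2 ≤ q) (hk : k < q ^ d) :
    k ≡ ∑ i ∈ range d, dg q k i [MOD (q - 1)] := by
  have h1 : ∑ i ∈ range d, dg q k i * q ^ i = k := by
    rw [sum_dg, Nat.mod_eq_of_lt hk]
  conv_lhs => rw [← h1]
  apply Nat.ModEq.sum
  intro i _
  have h2 : q ≡ 1 [MOD (q - 1)] := by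
    have : (q - 1) + 1 ≡ 1 [MOD (q - 1)] := Nat.add_modEq_left
    rwa [Nat.sub_add_cancel (by omega)] at this
  have h3 := (h2.pow i).mul_left (dg q k i)
  rwa [one_pow, mul_one] at h3

theorem sum_dg_lt {q d k : ℕ} (hq : 2 ≤ q) (hk : k < q ^ d - 1) :
    ∑ i ∈ range d, dg q k i < d * (q - 1) := by
  by_contra hc
  push Not at hc
  have h1 : ∀ i ∈ range d, dg q k i ≤ q - 1 := fun i _ => by
    have := dg_lt hq k i
    omega
  have h2 : ∑ i ∈ range d, dg q k i ≤ ∑ i ∈ range d, (q - 1) := sum_le_sum h1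
  rw [sum_const, card_range, smul_eq_mul] at h2
  have h3 : ∑ i ∈ range d, dg q k i = ∑ i ∈ range d, (q - 1) := by
    rw [sum_const, card_range, smul_eq_mul]
    omega
  have h4 := (sum_eq_sum_iff_of_le h1).1 h3
  have h5 : ∑ i ∈ range d, dg q k i * q ^ i = q ^ d - 1 := by
    rw [← sum_pow q d hq]
    exact sum_congr rfl fun i hi => by rw [h4 i hi]
  rw [sum_dg, Nat.mod_eq_of_lt (by omega)] at h5
  omega

theorem prod_map_sum {ι α β : Type*} [CommMonoid β] (s : Finset ι) (f : ι → Multiset α) (g : α → β) :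
    ((∑ i ∈ s, f i).map g).prod = ∏ i ∈ s, ((f i).map g).prod := by
  classical
  induction s using Finset.induction_on with
  | empty => simp
  | insert a s ha ih =>
    rw [sum_insert ha, prod_insert ha, Multiset.map_add, Multiset.prod_add, ih]

theorem t_DIG : S_DIG := by
  intro q d k hq hd hk0 hk hdvd
  have hkd : k < q ^ d := by omega
  set S := ∑ i ∈ range d, dg q k i with hS
  have hq1 : 0 < q - 1 := by omega
  have hSd : (q - 1) ∣ S := by
    have h1 := modEq_sum hq hkd
    exact (Nat.modEq_zero_iff_dvd).1 (h1.symm.trans (Nat.modEq_zero_iff_dvd.2 hdvd))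
  have hSlt : S < d * (q - 1) := sum_dg_lt hq hk
  have hlt : S / (q - 1) < d := by
    rw [Nat.div_lt_iff_lt_mul hq1]
    exact hSlt
  have hn : nk q d k = d - S / (q - 1) := rfl
  have hmul : (q - 1) * (S / (q - 1)) = S := Nat.mul_div_cancel' hSd
  generalize hx : S / (q - 1) = x at hlt hn hmul
  refine ⟨?_, fun i hi => dg_eq_zero hq hkd i hi, ?_, ?_, ?_, ?_⟩
  · rw [sum_dg, Nat.mod_eq_of_lt hkd]
  · rw [hn]
    have : d - (d - x) = x := by omega
    rw [this, hmul]
  · rw [hn]; omega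
  · rw [hn]; omega
  · intro E _ θ
    refine ⟨?_, ?_⟩
    · unfold msk
      rw [Multiset.card_sum]
      simp only [Multiset.card_replicate]
      have h1 : ∑ i ∈ range d, (q - 1 - dg q k i) + S = d * (q - 1) := by
        rw [hS, ← sum_add_distrib]
        have h2 : ∀ i ∈ range d, q - 1 - dg q k i + dg q k i = q - 1 := fun i _ => by
          have := dg_lt hq k i
          omega
        rw [sum_congr rfl h2, sum_const, card_range, smul_eq_mul]
      rw [hn, Nat.sub_mul]
      have h3 : x * (q - 1) = S := by rw [mul_comm]; exact hmul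
      rw [h3]
      omega
    · unfold msk PP
      rw [prod_map_sum]
      apply prod_congr rfl
      intro i _
      rw [Multiset.map_replicate, Multiset.prod_replicate]

theorem aeval_pow {Fq E : Type} [Field Fq] [Fintype Fq] [Field E] [Algebra Fq E] (θ : E) (c : Fq[X])
    (i : ℕ) : aeval (θ ^ (Fintype.card Fq ^ i)) c = aeval θ c ^ (Fintype.card Fq ^ i) := by
  induction i with
  | zero => simp
  | succ i ih =>
    have h1 : aeval (θ ^ (Fintype.card Fq ^ (i + 1))) c =
        aeval (θ ^ (Fintype.card Fq ^ i)) (expand Fq (Fintype.card Fq) c) := by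
      rw [expand_aeval, ← pow_mul, pow_succ]
    rw [h1, FiniteField.expand_card, map_pow, ih, ← pow_mul, pow_succ]

theorem t_WTK : S_DIG → S_WTK := by
  intro _ Fq E _ _ _ _ _ w θ q d k hD hk0 hk hdvd c
  have hq : 2 ≤ q := by
    rw [hD.hq]
    exact Fintype.one_lt_card
  unfold msk
  rw [prod_map_sum]
  have h1 : ∀ i ∈ range d, ((Multiset.replicate (q - 1 - dg q k i) (θ ^ (q ^ i))).map
      fun t => aeval t c).prod = aeval θ c ^ (q ^ i * (q - 1 - dg q k i)) := by
    intro i _
    rw [Multiset.map_replicate, Multiset.prod_replicate, pow_mul]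
    congr 1
    rw [hD.hq]
    exact aeval_pow θ c i
  rw [prod_congr rfl h1, prod_pow_eq_pow_sum, sum_co hq (by omega)]

end Run7.h194.GK
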