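import Pool.Agent.Run7.h400.GK.StmK

/-!
# Piece HTH of the project GK (helper400, MP_a90b0f_nt): the functional equation
-/

set_option autoImplicit false

namespace Run7.h194.GK

open Polynomial Finset
open Run7.h400.GK

/-- the reversed polynomial as a power series -/
noncomputable def rv {E : Type} [Field E] (N : ℕ) (P : E[X]) : PowerSeries E :=
  PowerSeries.mk fun i => if i ≤ N then P.coeff (N - i) else 0

theorem coeff_rv {E : Type} [Field E] (N : ℕ) (P : E[X]) (i : ℕ) :
    PowerSeries.coeff i (rv N P) = if i ≤ N then P.coeff (N - i) else 0 := PowerSeries.coeff_mk _ _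

theorem rv_mul {E : Type} [Field E] (N : ℕ) (P : E[X]) (hP : P.natDegree ≤ N) (t : E) :
    rv (N + 1) ((X - C t) * P) = (1 - PowerSeries.C t * PowerSeries.X) * rv N P := by
  ext i
  rw [coeff_rv, sub_mul, sub_mul, one_mul, map_sub, mul_assoc, PowerSeries.coeff_C_mul]
  rcases Nat.eq_zero_or_pos i with h | h
  · subst h
    rw [if_pos (Nat.zero_le _), PowerSeries.coeff_zero_X_mul, coeff_rv, if_pos (Nat.zero_le _)]
    simp only [Nat.sub_zero, coeff_sub, coeff_X_mul, coeff_C_mul]
    rw [coeff_eq_zero_of_natDegree_lt (show P.natDegree < N + 1 by omega)]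
  · obtain ⟨j, rfl⟩ : ∃ j, i = j + 1 := ⟨i - 1, by omega⟩
    rw [PowerSeries.coeff_succ_X_mul, coeff_rv, coeff_rv]
    by_cases h1 : j + 1 ≤ N
    · rw [if_pos (by omega), if_pos h1, if_pos (by omega), coeff_sub, coeff_C_mul]
      have e1 : N + 1 - (j + 1) = (N - (j + 1)) + 1 := by omega
      have e2 : N - j = (N - (j + 1)) + 1 := by omega
      rw [e1, coeff_X_mul, e2]
    · by_cases h2 : j + 1 ≤ N + 1
      · have h3 : j = N := by omega
        subst h3
        rw [if_pos h2, if_neg h1, if_pos le_rfl]
        simp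
      · rw [if_neg h2, if_neg h1, if_neg (by omega)]
        simp

/-- the functional equation in terms of power series -/
theorem feq_of {E : Type} [Field E] (q N : ℕ) (hq : q ≠ 0) (P : E[X]) (h : PowerSeries E)
    (h0 : PowerSeries.constantCoeff h = 1) (he : h = rv N P * PowerSeries.expand q hq h) :
    FEq q N P h := by
  refine ⟨h0, fun m => ?_⟩
  conv_lhs => rw [he]
  rw [PowerSeries.coeff_mul, Nat.sum_antidiagonal_eq_sum_range_succ_mk]
  have hq1 : 0 < q := Nat.pos_of_ne_zero hq
  -- rewrite the sum over the second index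
  have e1 : ∑ k ∈ range m.succ, PowerSeries.coeff (k, m - k).1 (rv N P) *
      PowerSeries.coeff (k, m - k).2 (PowerSeries.expand q hq h) =
      ∑ b ∈ range (m + 1), PowerSeries.coeff (m - b) (rv N P) *
        PowerSeries.coeff b (PowerSeries.expand q hq h) := by
    rw [← Finset.sum_range_reflect]
    apply Finset.sum_congr rfl
    intro b hb
    rw [mem_range] at hb
    have h1 : m.succ - 1 - b = m - b := by omega
    have h2 : m - (m - b) = b := by omega
    simp only [h1, h2]
  rw [e1]
  have e2 : ∀ b ∈ range (m + 1), PowerSeries.coeff (m - b) (rv N P) *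
        PowerSeries.coeff b (PowerSeries.expand q hq h) =
      if q ∣ b then PowerSeries.coeff (m - b) (rv N P) * PowerSeries.coeff (b / q) h else 0 := by
    intro b _
    rw [PowerSeries.coeff_expand]
    split_ifs
    · rfl
    · rw [mul_zero]
  rw [Finset.sum_congr rfl e2, ← Finset.sum_filter]
  symm
  apply Finset.sum_bij (fun j _ => q * j)
  · intro j hj
    rw [mem_range] at hj
    rw [mem_filter, mem_range]
    refine ⟨?_, Dvd.intro _ rfl⟩
    have : j ≤ m / q := by omega
    have := (Nat.le_div_iff_mul_le hq1).1 this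
    rw [mul_comm] at this
    omega
  · intro a _ b _ hab
    exact Nat.eq_of_mul_eq_mul_left hq1 hab
  · intro b hb
    rw [mem_filter, mem_range] at hb
    obtain ⟨hb1, c, rfl⟩ := hb
    refine ⟨c, ?_, rfl⟩
    rw [mem_range]
    have : c ≤ m / q := by
      rw [Nat.le_div_iff_mul_le hq1, mul_comm]
      omega
    omega
  · intro j _
    rw [coeff_rv, Nat.mul_div_cancel_left _ hq1]

theorem digits_mul {q : ℕ} (hq : 2 ≤ q) (j r : ℕ) (hr : r < q) (h : 0 < q * j + r) :
    Nat.digits q (q * j + r) = r :: Nat.digits q j := by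
  rw [Nat.digits_def' (by omega) h]
  congr 1
  · rw [Nat.mul_add_mod, Nat.mod_eq_of_lt hr]
  · rw [Nat.mul_add_div (by omega), Nat.div_eq_of_lt hr, add_zero]

theorem coeff_Hth_aux {E : Type} [Field E] {q : ℕ} (hq : 2 ≤ q) (t : E) (j r : ℕ) (hr : r < q) :
    PowerSeries.coeff (q * j + r) (Hth q t) =
      if r = 0 then PowerSeries.coeff j (Hth q t) else
        if r = 1 then -t * PowerSeries.coeff j (Hth q t) else 0 := by
  unfold Hth
  rw [PowerSeries.coeff_mk, PowerSeries.coeff_mk]
  rcases Nat.eq_zero_or_pos (q * j + r) with h | h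
  · have h1 : r = 0 := by omega
    have h2 : j = 0 := by
      have : q * j = 0 := by omega
      rcases Nat.mul_eq_zero.1 this with h' | h'
      · omega
      · exact h'
    rw [h1, h2]
    simp
  · rw [digits_mul hq j r hr h]
    simp only [List.mem_cons, forall_eq_or_imp, List.sum_cons]
    by_cases h0 : r = 0
    · rw [if_pos h0, h0]
      simp
    · rw [if_neg h0]
      by_cases h1 : r = 1
      · rw [if_pos h1, h1]
        simp only [le_refl, true_and]
        split_ifs
        · rw [pow_add, pow_one]
        · rw [mul_zero]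
      · rw [if_neg h1, if_neg]
        intro h2
        omega

theorem Hth_eq {E : Type} [Field E] {q : ℕ} (hq : 2 ≤ q) (hq0 : q ≠ 0) (t : E) :
    Hth q t = (1 - PowerSeries.C t * PowerSeries.X) * PowerSeries.expand q hq0 (Hth q t) := by
  ext m
  obtain ⟨j, r, hr, rfl⟩ : ∃ j r, r < q ∧ m = q * j + r :=
    ⟨m / q, m % q, Nat.mod_lt _ (by omega), (Nat.div_add_mod m q).symm⟩
  rw [coeff_Hth_aux hq t j r hr, sub_mul, one_mul, map_sub, mul_assoc, PowerSeries.coeff_C_mul,
    PowerSeries.coeff_expand]
  have hd : q ∣ q * j + r ↔ r = 0 := by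
    constructor
    · intro h
      have h1 : q ∣ r := (Nat.dvd_add_right (Dvd.intro _ rfl)).1 h
      exact Nat.eq_zero_of_dvd_of_lt h1 hr
    · intro h
      rw [h, add_zero]
      exact Dvd.intro _ rfl
  by_cases h0 : r = 0
  · rw [if_pos h0, if_pos (hd.2 h0), h0, add_zero, Nat.mul_div_cancel_left _ (by omega)]
    rcases Nat.eq_zero_or_pos (q * j) with h | h
    · rw [h, PowerSeries.coeff_zero_X_mul, mul_zero, sub_zero]
    · obtain ⟨l, hl⟩ : ∃ l, q * j = l + 1 := ⟨q * j - 1, by omega⟩
      rw [hl, PowerSeries.coeff_succ_X_mul, PowerSeries.coeff_expand, if_neg, mul_zero, sub_zero]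
      intro h1
      have h2 : q ∣ l + 1 := hl ▸ Dvd.intro _ rfl
      have h3 : q ∣ 1 := (Nat.dvd_add_right h1).1 h2
      have := Nat.le_of_dvd one_pos h3
      omega
  · rw [if_neg h0, if_neg (fun h => h0 (hd.1 h))]
    obtain ⟨l, rfl⟩ : ∃ l, r = l + 1 := ⟨r - 1, by omega⟩
    rw [← add_assoc, PowerSeries.coeff_succ_X_mul, PowerSeries.coeff_expand]
    have hd' : q ∣ q * j + l ↔ l = 0 := by
      constructor
      · intro h
        have h1 : q ∣ l := (Nat.dvd_add_right (Dvd.intro _ rfl)).1 h
        exact Nat.eq_zero_of_dvd_of_lt h1 (by omega)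
      · intro h
        rw [h, add_zero]
        exact Dvd.intro _ rfl
    by_cases h1 : l = 0
    · rw [if_pos (by omega), if_pos (hd'.2 h1), h1, add_zero, Nat.mul_div_cancel_left _ (by omega)]
      ring
    · rw [if_neg (by omega), if_neg (fun h => h1 (hd'.1 h))]
      ring

theorem Hth_const {E : Type} [Field E] (q : ℕ) (t : E) :
    PowerSeries.constantCoeff (Hth q t) = 1 := by
  rw [← PowerSeries.coeff_zero_eq_constantCoeff, Hth, PowerSeries.coeff_mk]
  simp

theorem t_HTH : S_HTH := by
  intro E _ q s hq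
  have hq0 : q ≠ 0 := by omega
  have key : ((s.map fun t => Hth q t).prod) =
      rv (Multiset.card s) ((s.map fun t => X - C t).prod) *
        PowerSeries.expand q hq0 ((s.map fun t => Hth q t).prod) ∧
      PowerSeries.constantCoeff ((s.map fun t => Hth q t).prod) = 1 ∧
      ((s.map fun t => X - C t).prod).natDegree ≤ Multiset.card s := by
    induction s using Multiset.induction_on with
    | empty =>
      refine ⟨?_, by simp, by simp⟩
      simp only [Multiset.map_zero, Multiset.prod_zero, map_one, mul_one, Multiset.card_zero]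
      ext i
      rw [coeff_rv, PowerSeries.coeff_one]
      by_cases h : i = 0
      · subst h
        simp
      · rw [if_neg h, if_neg (by omega)]
    | cons a s ih =>
      obtain ⟨h1, h2, h3⟩ := ih
      rw [Multiset.map_cons, Multiset.prod_cons, Multiset.map_cons, Multiset.prod_cons,
        Multiset.card_cons]
      refine ⟨?_, ?_, ?_⟩
      · rw [rv_mul _ _ h3, map_mul]
        conv_lhs => rw [Hth_eq hq hq0 a, h1]
        ring
      · rw [map_mul, h2, Hth_const, mul_one]
      · refine natDegree_mul_le.trans ?_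
        rw [natDegree_X_sub_C]
        omega
  exact feq_of q _ hq0 _ _ key.2.1 key.1

end Run7.h194.GK
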